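import Pool.Agent.R827.PK.JLib

/-!
# Peak polynomials: densities after a gap at least `4`
-/

set_option autoImplicit false

open Polynomial intervalIntegral

namespace Pool.Agent.R827.PK

open Pool.Agent.R737.PK

theorem anti_nxt (j : ℕ) (ρ : ℝ[X]) (g : ℕ) (s : ℝ) :
    (nxt j ρ g).eval (1 - s) = - (nxt j ρ g).eval s := by
  unfold nxt
  simp
  ring

/-- the derivatives of the difference and the sum of an iterate and its reflection -/
theorem der_sub (ρ : ℝ[X]) (g : ℕ) : derivative ((J^[g + 1] ρ).comp (1 - X) - J^[g + 1] ρ) =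
    (J^[g] ρ).comp (1 - X) + J^[g] ρ := by
  rw [derivative_sub, deriv_comp, Function.iterate_succ_apply', deriv_J]
  rw [neg_comp]
  ring

theorem der_add (ρ : ℝ[X]) (g : ℕ) : derivative ((J^[g + 1] ρ).comp (1 - X) + J^[g + 1] ρ) =
    (J^[g] ρ).comp (1 - X) - J^[g] ρ := by
  rw [derivative_add, deriv_comp, Function.iterate_succ_apply', deriv_J]
  rw [neg_comp]
  ring

/-- convexity from the second derivative -/
theorem convex_of {p : ℝ[X]} {a b : ℝ}
    (h : ∀ s, a ≤ s → s ≤ b → 0 ≤ (derivative (derivative p)).eval s) :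
    ConvexOn ℝ (Set.Icc a b) (fun x => p.eval x) := by
  apply convexOn_of_deriv2_nonneg (convex_Icc a b) p.continuousOn
  · exact p.differentiable.differentiableOn
  · have : deriv (fun x => p.eval x) = fun x => (derivative p).eval x := by
      funext x
      exact p.deriv
    rw [this]
    exact (derivative p).differentiable.differentiableOn
  · intro x hx
    rw [interior_Icc] at hx
    have h1 : deriv (fun x => p.eval x) = fun x => (derivative p).eval x := by
      funext x
      exact p.deriv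
    have h2 : deriv (fun x => (derivative p).eval x) = fun x => (derivative (derivative p)).eval x := by
      funext x
      exact (derivative p).deriv
    have h3 : deriv^[2] (fun x => p.eval x) = fun x => (derivative (derivative p)).eval x := by
      rw [Function.iterate_succ_apply, h1, Function.iterate_one, h2]
    rw [h3]
    exact h x hx.1.le hx.2.le

theorem three_aux (h2 : StMom) (ρ : ℝ[X]) (hρ : Good ρ) (g : ℕ) :
    3 * (J^[g + 4] ρ).eval 0 ≤ (J^[g + 3] ρ).eval 0 := by
  obtain ⟨hp, hsym, -, hdec, -, h32⟩ := h2 ρ hρ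
  have a1 : (J^[g + 4] ρ).eval 0 * ((g + 2).factorial : ℝ) = M ρ (g + 2) := by
    have := J_iter (g + 2) (J ρ)
    rw [M_eq, ← this, ← Function.iterate_succ_apply]
  have a2 : (J^[g + 3] ρ).eval 0 * ((g + 1).factorial : ℝ) = M ρ (g + 1) := by
    have := J_iter (g + 1) (J ρ)
    rw [M_eq, ← this, ← Function.iterate_succ_apply]
  have a3 : ((g + 2).factorial : ℝ) = (g + 2) * ((g + 1).factorial : ℝ) := by
    rw [show g + 2 = (g + 1) + 1 from rfl, Nat.factorial_succ]
    push_cast
    ring
  have a4 : (0 : ℝ) < ((g + 1).factorial : ℝ) := by positivity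
  have key : 3 * M ρ (g + 2) ≤ (g + 2) * M ρ (g + 1) := by
    rcases Nat.eq_zero_or_pos g with rfl | hg
    · simp only [zero_add, Nat.cast_zero]
      linarith
    · have h3 := hdec (g + 1)
      have h4 := hp (g + 1)
      have h5 : (1 : ℝ) ≤ g := by exact_mod_cast hg
      nlinarith
  rw [← a1, ← a2, a3] at key
  have h6 : 0 ≤ ((g : ℝ) + 2) * ((g + 1).factorial : ℝ) *
      ((J^[g + 3] ρ).eval 0 - 3 * (J^[g + 4] ρ).eval 0) := by nlinarith
  have h7 : 0 < ((g : ℝ) + 2) * ((g + 1).factorial : ℝ) := by positivity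
  have h8 := nonneg_of_mul_nonneg_right h6 h7
  linarith

theorem base_nxt (h1 : StGood) (h2 : StMom) (j : ℕ) (ρ : ℝ[X]) (hρ : Good ρ) (g : ℕ) :
    Base (nxt j ρ (g + 4)) := by
  set c : ℝ := ((j + (g + 4)).factorial : ℝ) / (j.factorial : ℝ) with hc
  have hcpos : 0 ≤ c := by positivity
  have d0 : nxt j ρ (g + 4) = C c * ((J^[g + 4] ρ).comp (1 - X) - J^[g + 4] ρ) := rfl
  have d1 : derivative (nxt j ρ (g + 4)) = C c * ((J^[g + 3] ρ).comp (1 - X) + J^[g + 3] ρ) := by
    rw [d0, derivative_C_mul, der_sub ρ (g + 3)]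
  have d2 : derivative (derivative (nxt j ρ (g + 4))) =
      C c * ((J^[g + 2] ρ).comp (1 - X) - J^[g + 2] ρ) := by
    rw [d1, derivative_C_mul, der_add ρ (g + 2)]
  have d3 : derivative (derivative (derivative (nxt j ρ (g + 4)))) =
      C c * ((J^[g + 1] ρ).comp (1 - X) + J^[g + 1] ρ) := by
    rw [d2, derivative_C_mul, der_sub ρ (g + 1)]
  have nn : ∀ s : ℝ, 0 ≤ s → s ≤ 1 →
      0 ≤ (derivative (derivative (derivative (nxt j ρ (g + 4))))).eval s := by
    intro s hs0 hs1
    rw [d3]
    simp only [eval_mul, eval_C, eval_add, eval_comp, eval_sub, eval_one, eval_X]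
    exact mul_nonneg hcpos (add_nonneg (iter_nonneg hρ g (1 - s) (by linarith) (by linarith))
      (iter_nonneg hρ g s hs0 hs1))
  have J1 : ∀ n, (J^[n + 1] ρ).eval 1 = 0 := by
    intro n
    rw [Function.iterate_succ_apply', J_one]
  have hg := h1.1 j ρ hρ (g + 4) (by omega)
  refine ⟨hg, ?_, ?_, ?_⟩
  · rw [d1, d0]
    simp only [eval_mul, eval_C, eval_add, eval_comp, eval_sub, eval_one, eval_X, sub_self,
      sub_zero]
    rw [J1 (g + 3), J1 (g + 2)]
    have := three_aux h2 ρ hρ g
    nlinarith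
  · intro s hs0 hs1
    have hcv : ConvexOn ℝ (Set.Icc 0 1) (fun x => (derivative (nxt j ρ (g + 4))).eval x) :=
      convex_of nn
    have h3 := hcv.le_max_of_mem_Icc (x := 0) (y := 1) (z := s) ⟨le_refl 0, zero_le_one⟩
      ⟨zero_le_one, le_refl 1⟩ ⟨hs0, hs1⟩
    have h4 : (derivative (nxt j ρ (g + 4))).eval 1 = (derivative (nxt j ρ (g + 4))).eval 0 := by
      rw [d1]
      simp only [eval_mul, eval_C, eval_add, eval_comp, eval_sub, eval_one, eval_X, sub_self,
        sub_zero]
      ring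
    simp only [h4, max_self] at h3
    exact h3
  · intro s hs0 hs1
    have hmono : MonotoneOn (fun x => (derivative (derivative (nxt j ρ (g + 4)))).eval x)
        (Set.Icc 0 1) := mono_of nn
    have hz : (derivative (derivative (nxt j ρ (g + 4)))).eval (1 / 2) = 0 := by
      rw [d2]
      simp only [eval_mul, eval_C, eval_comp, eval_sub, eval_one, eval_X]
      norm_num
    have hcv : ConvexOn ℝ (Set.Icc (1 / 2) 1) (fun x => (nxt j ρ (g + 4)).eval x) := by
      apply convex_of
      intro s ha hb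
      have := hmono (a := 1 / 2) (b := s) ⟨by norm_num, by norm_num⟩ ⟨by linarith, hb⟩ ha
      simp only [hz] at this
      exact this
    have h3 := hcv.2 (show (1 / 2 : ℝ) ∈ Set.Icc (1 / 2 : ℝ) 1 from ⟨le_refl _, by norm_num⟩)
      (show (1 : ℝ) ∈ Set.Icc (1 / 2 : ℝ) 1 from ⟨by norm_num, le_refl _⟩)
      (show 0 ≤ 1 - (2 * s - 1) by linarith) (show 0 ≤ 2 * s - 1 by linarith) (by ring)
    simp only [smul_eq_mul] at h3
    have h4 : (1 - (2 * s - 1)) * (1 / 2) + (2 * s - 1) * 1 = s := by ring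
    rw [h4, anti_half (anti_nxt j ρ (g + 4))] at h3
    linarith

theorem pow_sub_le (n : ℕ) (s : ℝ) (h0 : 1 / 2 ≤ s) (h1 : s ≤ 1) :
    s ^ (n + 1) - (1 - s) ^ (n + 1) ≤ 2 * s - 1 := by
  induction n with
  | zero => simp; linarith
  | succ n ih =>
    have h2 : (1 - s) ^ n ≤ s ^ n := pow_le_pow_left₀ (by linarith) (by linarith) n
    have h3 : 0 ≤ s * (1 - s) := mul_nonneg (by linarith) (by linarith)
    have h4 : s ^ (n + 1 + 1) - (1 - s) ^ (n + 1 + 1) =
        s ^ (n + 1) - (1 - s) ^ (n + 1) - s * (1 - s) * (s ^ n - (1 - s) ^ n) := by ring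
    rw [h4]
    nlinarith [mul_nonneg h3 (sub_nonneg.2 h2)]

theorem pow_add_le (n : ℕ) (s : ℝ) (h0 : 0 ≤ s) (h1 : s ≤ 1) :
    s ^ (n + 1) + (1 - s) ^ (n + 1) ≤ 1 := by
  have h2 : s ^ (n + 1) ≤ s := by
    rw [pow_succ]
    exact mul_le_of_le_one_left h0 (pow_le_one₀ h0 h1)
  have h3 : (1 - s) ^ (n + 1) ≤ 1 - s := by
    rw [pow_succ]
    exact mul_le_of_le_one_left (by linarith) (pow_le_one₀ (by linarith) (by linarith))
  linarith

theorem base_pure (h1 : StGood) (m : ℕ) : Base (Pool.Agent.R737.PK.pure (m + 4)) := by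
  have hg := h1.2 (m + 4) (by omega)
  have d1 : derivative (Pool.Agent.R737.PK.pure (m + 4)) = C ((m + 4 : ℕ) : ℝ) * (C ((m + 3 : ℕ) : ℝ) *
      (X ^ (m + 2) + (1 - X) ^ (m + 2))) := by
    unfold Pool.Agent.R737.PK.pure
    rw [derivative_C_mul, derivative_sub]
    simp only [show m + 4 - 1 = m + 3 from rfl]
    rw [derivative_X_pow, derivative_pow, derivative_sub, derivative_one, derivative_X]
    simp only [show m + 3 - 1 = m + 2 from rfl]
    ring
  have hm : (0 : ℝ) ≤ (m : ℝ) := Nat.cast_nonneg m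
  refine ⟨hg, ?_, ?_, ?_⟩
  · rw [d1]
    unfold Pool.Agent.R737.PK.pure
    simp only [eval_mul, eval_C, eval_sub, eval_add, eval_pow, eval_X, eval_one, sub_self,
      sub_zero, one_pow, show m + 4 - 1 = m + 3 from rfl]
    rw [zero_pow (by omega), zero_pow (by omega)]
    push_cast
    nlinarith
  · intro s hs0 hs1
    rw [d1]
    simp only [eval_mul, eval_C, eval_sub, eval_add, eval_pow, eval_X, eval_one,
      sub_zero, one_pow]
    rw [zero_pow (by omega), zero_add]
    have := pow_add_le (m + 1) s hs0 hs1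
    rw [← mul_assoc, ← mul_assoc]
    exact mul_le_mul_of_nonneg_left this (by positivity)
  · intro s hs0 hs1
    unfold Pool.Agent.R737.PK.pure
    simp only [eval_mul, eval_C, eval_sub, eval_pow, eval_X, eval_one, sub_self,
      one_pow, show m + 4 - 1 = m + 3 from rfl]
    rw [zero_pow (by omega)]
    have := pow_sub_le (m + 2) s hs0 hs1
    have h5 : (0 : ℝ) ≤ ((m + 4 : ℕ) : ℝ) := Nat.cast_nonneg _
    nlinarith [mul_le_mul_of_nonneg_left this h5]

theorem stBase (h1 : StGood) (h2 : StMom) : StBase := by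
  constructor
  · intro j ρ hρ g hg
    obtain ⟨g', rfl⟩ := Nat.exists_eq_add_of_le hg
    rw [add_comm]
    exact base_nxt h1 h2 j ρ hρ g'
  · intro m hm
    obtain ⟨m', rfl⟩ := Nat.exists_eq_add_of_le hm
    rw [add_comm]
    exact base_pure h1 m'

end Pool.Agent.R827.PK
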