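import Pool.Agent.R827.PK.JLib

/-!
# Peak polynomials: the variance bound after a gap `2`
-/

set_option autoImplicit false

open Polynomial intervalIntegral

namespace Pool.Agent.R827.PK

open Pool.Agent.R737.PK

theorem nxt_anti (j : ℕ) (ρ : ℝ[X]) (g : ℕ) (s : ℝ) :
    (nxt j ρ g).eval (1 - s) = - (nxt j ρ g).eval s := by
  unfold nxt
  simp
  ring

theorem deriv_nxt (j : ℕ) (ρ : ℝ[X]) (g : ℕ) : derivative (nxt j ρ (g + 1)) =
    C (((j + (g + 1)).factorial : ℝ) / (j.factorial : ℝ)) *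
      ((J^[g] ρ).comp (1 - X) + J^[g] ρ) := by
  unfold nxt
  rw [derivative_C_mul, derivative_sub, deriv_comp, Function.iterate_succ_apply', deriv_J]
  rw [neg_comp]
  ring

/-- the auxiliary polynomial -/
noncomputable def Hp : ℝ[X] := C (5 / 6) * X ^ 4 - C (3 / 2) * X ^ 2 + C (2 / 3) * X

/-- the polynomial `t ^ 2 - t / 5`, `t = y (1 - y)` -/
noncomputable def Tp : ℝ[X] := (X * (1 - X)) ^ 2 - C (1 / 5) * (X * (1 - X))

theorem I_Tp : I Tp = 0 := by
  have h : Tp = derivative (C (1 / 5) * X ^ 5 - C (1 / 2) * X ^ 4 + C (1 / 3) * X ^ 3 -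
      C (1 / 5) * (C (1 / 2) * X ^ 2 - C (1 / 3) * X ^ 3)) := by
    apply Polynomial.funext
    intro y
    simp only [Tp, derivative_sub, derivative_add, derivative_C_mul, derivative_X_pow, eval_sub,
      eval_add, eval_mul, eval_C, eval_pow, eval_X, eval_one]
    push_cast
    ring
  rw [h, I_deriv]
  simp
  norm_num

theorem Hp_sum : Hp.comp (1 - X) + Hp = C (5 / 3) * Tp := by
  apply Polynomial.funext
  intro y
  simp only [Hp, Tp, eval_sub, eval_add, eval_mul, eval_C, eval_pow, eval_X, eval_one, eval_comp]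
  ring

theorem sigma_compare {ρ : ℝ[X]} (h : Good ρ) (y y0 : ℝ) (h0 : 0 ≤ y) (h1 : y ≤ 1) (h2 : 0 ≤ y0)
    (h3 : y0 ≤ 1 / 2) : (y0 * (1 - y0) ≤ y * (1 - y) → (J ρ).eval y0 ≤ (J ρ).eval y) ∧
      (y * (1 - y) ≤ y0 * (1 - y0) → (J ρ).eval y ≤ (J ρ).eval y0) := by
  wlog hy : y ≤ 1 / 2 generalizing y with H
  · have := H (1 - y) (by linarith) (by linarith) (by push Not at hy; linarith)
    rw [J_symm' h.anti] at this
    have e : (1 - y) * (1 - (1 - y)) = y * (1 - y) := by ring
    rw [e] at this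
    exact this
  constructor
  · intro h4
    have h5 : y0 ≤ y := by
      by_contra hc
      push Not at hc
      nlinarith [mul_pos (sub_pos.2 hc) (show 0 < 1 - y - y0 by linarith)]
    exact sigma_mono h ⟨h2, h3⟩ ⟨h0, hy⟩ h5
  · intro h4
    have h5 : y ≤ y0 := by
      by_contra hc
      push Not at hc
      nlinarith [mul_pos (sub_pos.2 hc) (show 0 < 1 - y - y0 by linarith)]
    exact sigma_mono h ⟨h0, hy⟩ ⟨h2, h3⟩ h5

theorem stGap2 : StGap2 := by
  intro j ρ hρ
  set c : ℝ := ((j + 2).factorial : ℝ) / (j.factorial : ℝ) with hc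
  have hcpos : 0 ≤ c := by positivity
  have hd : derivative (nxt j ρ 2) = C (2 * c) * J ρ := by
    rw [deriv_nxt j ρ 1]
    simp only [Function.iterate_one]
    rw [J_symm hρ.anti]
    change C c * (J ρ + J ρ) = _
    rw [map_mul]
    have : (C (2 : ℝ) : ℝ[X]) = 2 := rfl
    rw [this]
    ring
  have h0 : (J (nxt j ρ 2)).eval 0 = 0 := by
    have := J_symm' (nxt_anti j ρ 2) 1
    rw [sub_self] at this
    rw [this, J_one]
  -- the main identity
  have hkey : 3 * M (nxt j ρ 2) 0 - 10 * M (nxt j ρ 2) 2 = 2 * c * I (Hp * J ρ) := by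
    have h1 := I_deriv (- (derivative Hp * J (nxt j ρ 2)) + Hp * (- nxt j ρ 2))
    have h2 : derivative (- (derivative Hp * J (nxt j ρ 2)) + Hp * (- nxt j ρ 2)) =
        C 3 * (X ^ 0 * J (nxt j ρ 2)) - C 10 * (X ^ 2 * J (nxt j ρ 2)) -
          C (2 * c) * (Hp * J ρ) := by
      rw [derivative_add, derivative_neg, derivative_mul, derivative_mul, derivative_neg, deriv_J,
        hd]
      have h3 : derivative (derivative Hp) = C 10 * X ^ 2 - C 3 := by
        apply Polynomial.funext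
        intro y
        simp only [Hp, derivative_sub, derivative_add, derivative_X_pow,
          derivative_X, derivative_mul, derivative_C, eval_sub, derivative_one, derivative_zero,
          eval_add, eval_mul, eval_C, eval_pow, eval_X, eval_one, eval_zero]
        push_cast
        ring
      rw [h3]
      ring
    rw [h2, I_sub, I_sub, I_C_mul, I_C_mul, I_C_mul, ← M_eq, ← M_eq] at h1
    have h4 : (- (derivative Hp * J (nxt j ρ 2)) + Hp * (- nxt j ρ 2)).eval 1 = 0 := by
      simp only [eval_add, eval_neg, eval_mul, J_one]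
      simp [Hp]
      norm_num
    have h5 : (- (derivative Hp * J (nxt j ρ 2)) + Hp * (- nxt j ρ 2)).eval 0 = 0 := by
      simp only [eval_add, eval_neg, eval_mul, h0]
      simp [Hp]
    rw [h4, h5] at h1
    linarith
  have h2 : 2 * I (Hp * J ρ) = 5 / 3 * I (Tp * J ρ) := by
    have h3 := I_comp (Hp * J ρ)
    rw [mul_comp, J_symm hρ.anti] at h3
    have h4 : I (Hp.comp (1 - X) * J ρ) + I (Hp * J ρ) = 5 / 3 * I (Tp * J ρ) := by
      rw [← I_add, ← add_mul, Hp_sum, mul_assoc, I_C_mul]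
    linarith
  set y0 : ℝ := (1 - Real.sqrt (1 / 5)) / 2 with hy0
  have hs : Real.sqrt (1 / 5) ^ 2 = 1 / 5 := Real.sq_sqrt (by norm_num)
  have hs0 : 0 ≤ Real.sqrt (1 / 5) := Real.sqrt_nonneg _
  have hs1 : Real.sqrt (1 / 5) ≤ 1 := by
    by_contra hc1
    push Not at hc1
    nlinarith
  have hy1 : y0 * (1 - y0) = 1 / 5 := by
    rw [hy0]
    nlinarith
  have h3 : 0 ≤ I (Tp * (J ρ - C ((J ρ).eval y0))) := by
    apply I_nonneg
    intro y ya yb
    have h4 := sigma_compare hρ y y0 ya yb (by rw [hy0]; linarith) (by rw [hy0]; linarith)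
    rw [hy1] at h4
    simp only [Tp, eval_sub, eval_mul, eval_C, eval_pow, eval_X, eval_one]
    have ht : 0 ≤ y * (1 - y) := mul_nonneg ya (by linarith)
    rcases le_total (1 / 5) (y * (1 - y)) with h5 | h5
    · have h6 := h4.1 h5
      have h7 : (y * (1 - y)) ^ 2 - 1 / 5 * (y * (1 - y)) = (y * (1 - y)) * (y * (1 - y) - 1 / 5) := by
        ring
      rw [h7]
      exact mul_nonneg (mul_nonneg ht (by linarith)) (by linarith)
    · have h6 := h4.2 h5
      have h7 : ((y * (1 - y)) ^ 2 - 1 / 5 * (y * (1 - y))) * ((J ρ).eval y - (J ρ).eval y0) =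
          (y * (1 - y)) * (1 / 5 - y * (1 - y)) * ((J ρ).eval y0 - (J ρ).eval y) := by
        ring
      rw [h7]
      exact mul_nonneg (mul_nonneg ht (by linarith)) (by linarith)
  have h4 : I (Tp * (J ρ - C ((J ρ).eval y0))) = I (Tp * J ρ) := by
    rw [mul_sub, I_sub, mul_comm Tp (C _), I_C_mul, I_Tp]
    ring
  rw [h4] at h3
  nlinarith [mul_nonneg hcpos h3]

end Pool.Agent.R827.PK
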