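import Pool.Agent.R737.PK.Stm

/-!
# Elementary properties of the operator `J` (peak polynomials)
-/

set_option autoImplicit false

open Polynomial intervalIntegral

namespace Pool.Agent.R827.PK

open Pool.Agent.R737.PK

/-- the integral over `[0, 1]` -/
noncomputable def I (p : ℝ[X]) : ℝ := ∫ y in (0 : ℝ)..1, p.eval y

theorem pint (p : ℝ[X]) (a b : ℝ) :
    IntervalIntegrable (fun y => p.eval y) MeasureTheory.volume a b :=
  p.continuous.intervalIntegrable a b

theorem I_add (p q : ℝ[X]) : I (p + q) = I p + I q := by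
  unfold I
  rw [← intervalIntegral.integral_add (pint p 0 1) (pint q 0 1)]
  simp

theorem I_sub (p q : ℝ[X]) : I (p - q) = I p - I q := by
  unfold I
  rw [← intervalIntegral.integral_sub (pint p 0 1) (pint q 0 1)]
  simp

theorem I_C_mul (c : ℝ) (p : ℝ[X]) : I (C c * p) = c * I p := by
  unfold I
  simp

theorem I_neg (p : ℝ[X]) : I (-p) = - I p := by
  unfold I
  simp

theorem I_deriv (p : ℝ[X]) : I (derivative p) = p.eval 1 - p.eval 0 := by
  unfold I
  exact intervalIntegral.integral_eq_sub_of_hasDerivAt (f := fun y => p.eval y)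
    (f' := fun y => (derivative p).eval y) (fun x _ => p.hasDerivAt x) (pint _ _ _)

theorem I_nonneg (p : ℝ[X]) (h : ∀ y : ℝ, 0 ≤ y → y ≤ 1 → 0 ≤ p.eval y) : 0 ≤ I p := by
  unfold I
  apply intervalIntegral.integral_nonneg (by norm_num)
  intro u hu
  exact h u hu.1 hu.2

theorem I_comp (p : ℝ[X]) : I (p.comp (1 - X)) = I p := by
  unfold I
  have : ∀ y : ℝ, (p.comp (1 - X)).eval y = p.eval (1 - y) := by
    intro y
    simp
  simp_rw [this]
  rw [intervalIntegral.integral_comp_sub_left (fun y => p.eval y) 1]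
  simp

theorem deriv_anti (f : ℝ[X]) : derivative (anti f) = f := by
  unfold anti
  rw [Polynomial.sum_def, derivative_sum]
  conv_rhs => rw [← Polynomial.sum_monomial_eq f, Polynomial.sum_def]
  apply Finset.sum_congr rfl
  intro l _
  rw [derivative_monomial]
  congr 1
  push_cast
  field_simp

theorem deriv_J (f : ℝ[X]) : derivative (J f) = -f := by
  unfold J
  rw [derivative_sub, derivative_C, deriv_anti, zero_sub]

theorem J_one (f : ℝ[X]) : (J f).eval 1 = 0 := by
  unfold J
  simp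

theorem eq_of_deriv {p q : ℝ[X]} (h : derivative p = derivative q) (a : ℝ)
    (h0 : p.eval a = q.eval a) : p = q := by
  have h1 : derivative (p - q) = 0 := by rw [derivative_sub, h, sub_self]
  have h2 := derivative_eq_zero.1 h1
  obtain ⟨c, hc⟩ := natDegree_eq_zero.1 h2
  have h3 : (p - q).eval a = 0 := by rw [eval_sub, h0, sub_self]
  rw [← hc, eval_C] at h3
  rw [h3, map_zero] at hc
  exact sub_eq_zero.1 hc.symm

theorem J_zero_eq (f : ℝ[X]) : (J f).eval 0 = I f := by
  have h := I_deriv (J f)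
  rw [deriv_J, I_neg, J_one] at h
  linarith

theorem deriv_comp (f : ℝ[X]) : derivative (f.comp (1 - X)) = - (derivative f).comp (1 - X) := by
  rw [derivative_comp]
  simp

/-- integration by parts -/
theorem J_iter (k : ℕ) : ∀ f : ℝ[X], (J^[k + 1] f).eval 0 * (k.factorial : ℝ) = I (X ^ k * f) := by
  induction k with
  | zero =>
    intro f
    simp [J_zero_eq]
  | succ k ih =>
    intro f
    have h1 := ih (J f)
    have h2 : (J^[k + 1 + 1] f) = J^[k + 1] (J f) := by
      rw [Function.iterate_succ_apply]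
    rw [h2, Nat.factorial_succ]
    push_cast
    have h3 := I_deriv (X ^ (k + 1) * J f)
    rw [derivative_mul, deriv_J, derivative_X_pow] at h3
    have h4 : I (C (((k + 1 : ℕ) : ℝ)) * X ^ (k + 1 - 1) * J f + X ^ (k + 1) * -f) =
        (k + 1 : ℝ) * I (X ^ k * J f) - I (X ^ (k + 1) * f) := by
      rw [mul_neg, ← sub_eq_add_neg, I_sub, mul_assoc, I_C_mul]
      push_cast
      simp
    rw [h4] at h3
    simp only [eval_mul, eval_pow, eval_X, J_one] at h3
    norm_num at h3
    rw [← h1] at h3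
    linarith

theorem M_eq (ρ : ℝ[X]) (n : ℕ) : M ρ n = I (X ^ n * J ρ) := by
  unfold M I
  simp

/-- a polynomial with nonnegative derivative is monotone -/
theorem mono_of {p : ℝ[X]} {a b : ℝ} (h : ∀ s, a ≤ s → s ≤ b → 0 ≤ (derivative p).eval s) :
    MonotoneOn (fun x => p.eval x) (Set.Icc a b) := by
  apply monotoneOn_of_deriv_nonneg (convex_Icc a b) p.continuousOn
  · exact p.differentiable.differentiableOn
  · intro x hx
    rw [interior_Icc] at hx
    rw [Polynomial.deriv]
    exact h x hx.1.le hx.2.le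

theorem J_nonneg {f : ℝ[X]} (h : ∀ s : ℝ, 0 ≤ s → s ≤ 1 → 0 ≤ f.eval s) :
    ∀ s : ℝ, 0 ≤ s → s ≤ 1 → 0 ≤ (J f).eval s := by
  intro s h0 h1
  have h2 : MonotoneOn (fun x => (-(J f)).eval x) (Set.Icc 0 1) := by
    apply mono_of
    intro s h0 h1
    rw [derivative_neg, deriv_J, neg_neg]
    exact h s h0 h1
  have h3 := h2 ⟨h0, h1⟩ ⟨zero_le_one, le_refl 1⟩ h1
  simp only [eval_neg, J_one] at h3
  linarith

theorem anti_half {ρ : ℝ[X]} (h : ∀ s : ℝ, ρ.eval (1 - s) = - ρ.eval s) : ρ.eval (1 / 2) = 0 := by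
  have := h (1 / 2)
  norm_num at this
  linarith

theorem J_symm {ρ : ℝ[X]} (h : ∀ s : ℝ, ρ.eval (1 - s) = - ρ.eval s) :
    (J ρ).comp (1 - X) = J ρ := by
  apply eq_of_deriv (a := 1 / 2)
  · rw [deriv_comp, deriv_J]
    have : ρ.comp (1 - X) = - ρ := by
      apply Polynomial.funext
      intro s
      simp [h s]
    rw [neg_comp, this]
    simp
  · simp
    norm_num

theorem J_symm' {ρ : ℝ[X]} (h : ∀ s : ℝ, ρ.eval (1 - s) = - ρ.eval s) (s : ℝ) :
    (J ρ).eval (1 - s) = (J ρ).eval s := by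
  have := congrArg (fun p => p.eval s) (J_symm h)
  simpa using this

/-- `J ρ` is increasing on `[0, 1/2]` -/
theorem sigma_mono {ρ : ℝ[X]} (h : Good ρ) :
    MonotoneOn (fun x => (J ρ).eval x) (Set.Icc 0 (1 / 2)) := by
  apply mono_of
  intro s h0 h1
  rw [deriv_J, eval_neg]
  have h2 : MonotoneOn (fun x => ρ.eval x) (Set.Icc 0 1) := mono_of h.mono
  have h3 := h2 (a := s) (b := 1 / 2) ⟨h0, by linarith⟩ ⟨by norm_num, by norm_num⟩ h1
  simp only [anti_half h.anti] at h3
  linarith

theorem sigma_nonneg {ρ : ℝ[X]} (h : Good ρ) (s : ℝ) (h0 : 0 ≤ s) (h1 : s ≤ 1) :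
    0 ≤ (J ρ).eval s := by
  have h2 : (J ρ).eval 0 = 0 := by
    have := J_symm' h.anti 1
    rw [sub_self] at this
    rw [this, J_one]
  rcases le_total s (1 / 2) with h3 | h3
  · have := sigma_mono h (a := 0) (b := s) ⟨le_refl 0, by norm_num⟩ ⟨h0, h3⟩ h0
    simp only [h2] at this
    exact this
  · have := sigma_mono h (a := 0) (b := 1 - s) ⟨le_refl 0, by norm_num⟩ ⟨by linarith, by linarith⟩
      (by linarith)
    simp only [h2, J_symm' h.anti] at this
    exact this

theorem iter_nonneg {ρ : ℝ[X]} (h : Good ρ) (n : ℕ) :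
    ∀ s : ℝ, 0 ≤ s → s ≤ 1 → 0 ≤ (J^[n + 1] ρ).eval s := by
  induction n with
  | zero => exact sigma_nonneg h
  | succ n ih =>
    rw [Function.iterate_succ_apply']
    exact J_nonneg ih

end Pool.Agent.R827.PK
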